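import Mathlib

/-!
# Homogeneous subadditive functions of finite rank on a commutative group

Let `H` be a nonnegative, symmetric, homogeneous and subadditive function on a commutative group.
If on each subgroup generated by more than `S` elements it has arbitrarily small values in the
sense below, then it is comparable to the norm of a homomorphism to `ℝ^s`, `s ≤ S`.
-/

set_option autoImplicit false

open Filter Topology

namespace Pool.Agent.U492.ER

variable {Γ : Type} [AddCommGroup Γ] {H : Γ → ℝ}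

/-- seminorms on a commutative group -/
structure Semi (H : Γ → ℝ) : Prop where
  add : ∀ a b, H (a + b) ≤ H a + H b
  smul : ∀ (k : ℕ) a, H (k • a) = k * H a
  neg : ∀ a, H (-a) = H a

theorem Semi.zero (h : Semi H) : H 0 = 0 := by
  have := h.smul 0 0
  simpa using this

theorem Semi.nonneg (h : Semi H) (a : Γ) : 0 ≤ H a := by
  have h1 := h.add a (-a)
  rw [add_neg_cancel, h.zero, h.neg] at h1
  linarith

theorem Semi.sub (h : Semi H) (a b : Γ) : H (a - b) ≤ H a + H b := by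
  have h1 := h.add a (-b)
  rw [h.neg, ← sub_eq_add_neg] at h1
  exact h1

theorem Semi.zsmul (h : Semi H) (k : ℤ) (a : Γ) : H (k • a) = |(k : ℝ)| * H a := by
  obtain ⟨n, rfl | rfl⟩ := k.eq_nat_or_neg
  · rw [natCast_zsmul, h.smul]
    simp
  · rw [neg_smul, h.neg, natCast_zsmul, h.smul]
    simp

theorem Semi.sum (h : Semi H) {s : ℕ} (g : Fin s → Γ) (a : Fin s → ℤ) :
    H (∑ i, a i • g i) ≤ (∑ i, H (g i)) * ∑ i, |(a i : ℝ)| := by
  have key : ∀ t : Finset (Fin s), H (∑ i ∈ t, a i • g i) ≤ ∑ i ∈ t, |(a i : ℝ)| * H (g i) := by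
    classical
    intro t
    induction t using Finset.induction_on with
    | empty => simp [h.zero]
    | insert i t hi ih =>
      rw [Finset.sum_insert hi, Finset.sum_insert hi]
      refine (h.add _ _).trans ?_
      rw [h.zsmul]
      linarith
  refine (key Finset.univ).trans ?_
  rw [Finset.mul_sum]
  refine Finset.sum_le_sum fun i _ => ?_
  rw [mul_comm]
  refine mul_le_mul_of_nonneg_right ?_ (abs_nonneg _)
  exact Finset.single_le_sum (f := fun i => H (g i)) (fun i _ => h.nonneg _) (Finset.mem_univ i)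

/-- the elements generate a subgroup on which `H` is a norm -/
def IsNormal (H : Γ → ℝ) {s : ℕ} (g : Fin s → Γ) : Prop :=
  ∃ c : ℝ, 0 < c ∧ ∀ a : Fin s → ℤ, c * ∑ i, |(a i : ℝ)| ≤ H (∑ i, a i • g i)

theorem exists_max (h : Semi H) {S : ℕ} (hS : ∀ (s : ℕ) (g : Fin s → Γ), IsNormal H g → s ≤ S) :
    ∃ s ≤ S, ∃ g : Fin s → Γ, IsNormal H g ∧ ∀ g' : Fin (s + 1) → Γ, ¬ IsNormal H g' := by
  classical
  by_contra hcon
  push Not at hcon
  have key : ∀ s ≤ S + 1, ∃ g : Fin s → Γ, IsNormal H g := by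
    intro s
    induction s with
    | zero => exact fun _ => ⟨Fin.elim0, 1, one_pos, fun a => by simp [h.zero]⟩
    | succ s ih =>
      intro hs
      obtain ⟨g, hg⟩ := ih (by omega)
      exact hcon s (by omega) g hg
  obtain ⟨g, hg⟩ := key (S + 1) le_rfl
  have := hS _ g hg
  omega

/-- the real coordinates -/
def Rel (H : Γ → ℝ) {s : ℕ} (g : Fin s → Γ) (x : Γ) (v : Fin s → ℝ) : Prop :=
  ∀ ε : ℝ, 0 < ε → ∃ m : ℕ, 0 < m ∧ ∃ a : Fin s → ℤ, ∑ i, |v i - a i / m| ≤ ε ∧
    H (m • x - ∑ i, a i • g i) ≤ ε * m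

variable {s : ℕ} {g : Fin s → Γ}

theorem Rel.add (h : Semi H) {x y : Γ} {v w : Fin s → ℝ} (hx : Rel H g x v) (hy : Rel H g y w) :
    Rel H g (x + y) (v + w) := by
  intro ε hε
  obtain ⟨m, hm, a, h1, h2⟩ := hx (ε / 2) (by linarith)
  obtain ⟨k, hk, b, h3, h4⟩ := hy (ε / 2) (by linarith)
  have hm' : (0 : ℝ) < m := by exact_mod_cast hm
  have hk' : (0 : ℝ) < k := by exact_mod_cast hk
  refine ⟨m * k, Nat.mul_pos hm hk, fun i => k * a i + m * b i, ?_, ?_⟩
  · have h5 : ∀ i, |(v + w) i - ((k * a i + m * b i : ℤ) : ℝ) / ((m * k : ℕ) : ℝ)| ≤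
        |v i - a i / m| + |w i - b i / k| := by
      intro i
      refine le_trans (le_of_eq ?_) (abs_add_le _ _)
      congr 1
      rw [Pi.add_apply]
      push_cast
      field_simp
      ring
    refine (Finset.sum_le_sum fun i _ => h5 i).trans ?_
    rw [Finset.sum_add_distrib]
    linarith
  · have e : (m * k) • (x + y) - ∑ i, (k * a i + m * b i : ℤ) • g i =
        k • (m • x - ∑ i, a i • g i) + m • (k • y - ∑ i, b i • g i) := by
      simp only [smul_sub, Finset.smul_sum, add_smul, mul_smul, Finset.sum_add_distrib, smul_add,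
        natCast_zsmul]
      rw [smul_comm k m x]
      abel
    rw [e]
    refine (h.add _ _).trans ?_
    rw [h.smul, h.smul]
    push_cast
    have h5 := mul_le_mul_of_nonneg_left h2 hk'.le
    have h6 := mul_le_mul_of_nonneg_left h4 hm'.le
    nlinarith

theorem Rel.neg (h : Semi H) {x : Γ} {v : Fin s → ℝ} (hx : Rel H g x v) : Rel H g (-x) (-v) := by
  intro ε hε
  obtain ⟨m, hm, a, h1, h2⟩ := hx ε hε
  refine ⟨m, hm, fun i => -a i, ?_, ?_⟩
  · refine le_trans (le_of_eq (Finset.sum_congr rfl fun i _ => ?_)) h1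
    rw [← abs_neg]
    congr 1
    rw [Pi.neg_apply]
    push_cast
    ring
  · have e : m • (-x) - ∑ i, (-a i) • g i = -(m • x - ∑ i, a i • g i) := by
      simp only [neg_smul, Finset.sum_neg_distrib, smul_neg]
      abel
    rw [e, h.neg]
    exact h2

/-- the lower bound -/
theorem Rel.lower (h : Semi H) {c : ℝ} (hc : 0 < c)
    (hg : ∀ a : Fin s → ℤ, c * ∑ i, |(a i : ℝ)| ≤ H (∑ i, a i • g i)) {x : Γ} {v : Fin s → ℝ}
    (hx : Rel H g x v) : c * ∑ i, |v i| ≤ H x := by
  refine le_of_forall_pos_le_add fun δ hδ => ?_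
  obtain ⟨m, hm, a, h1, h2⟩ := hx (δ / (1 + c)) (by positivity)
  have hm' : (0 : ℝ) < m := by exact_mod_cast hm
  have h3 : c * ∑ i, |(a i : ℝ)| ≤ δ / (1 + c) * m + m * H x := by
    refine (hg a).trans ?_
    have e : ∑ i, a i • g i = m • x - (m • x - ∑ i, a i • g i) := by abel
    have h4 := h.sub (m • x) (m • x - ∑ i, a i • g i)
    rw [← e, h.smul] at h4
    linarith
  have h4 : ∑ i, |v i| ≤ δ / (1 + c) + (∑ i, |(a i : ℝ)|) / m := by
    rw [Finset.sum_div]
    have h5 : ∀ i, |v i| ≤ |v i - a i / m| + |(a i : ℝ)| / m := by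
      intro i
      have h6 := abs_add_le (v i - a i / m) (a i / m)
      rw [sub_add_cancel, abs_div, Nat.abs_cast] at h6
      exact h6
    refine (Finset.sum_le_sum fun i _ => h5 i).trans ?_
    rw [Finset.sum_add_distrib]
    linarith
  have h5 : c * ((∑ i, |(a i : ℝ)|) / m) ≤ δ / (1 + c) + H x := by
    rw [← mul_div_assoc, div_le_iff₀ hm']
    linarith
  have h6 := mul_le_mul_of_nonneg_left h4 hc.le
  have h7 : c * (δ / (1 + c)) + δ / (1 + c) = δ := by field_simp; ring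
  linarith

/-- the upper bound -/
theorem Rel.upper (h : Semi H) {x : Γ} {v : Fin s → ℝ} (hx : Rel H g x v) :
    H x ≤ (∑ i, H (g i)) * ∑ i, |v i| := by
  obtain ⟨L, hL⟩ : ∃ L, L = ∑ i, H (g i) := ⟨_, rfl⟩
  have hL0 : 0 ≤ L := by rw [hL]; exact Finset.sum_nonneg fun i _ => h.nonneg _
  refine le_of_forall_pos_le_add fun δ hδ => ?_
  obtain ⟨m, hm, a, h1, h2⟩ := hx (δ / (1 + L)) (by positivity)
  have hm' : (0 : ℝ) < m := by exact_mod_cast hm
  have h3 : m * H x ≤ δ / (1 + L) * m + L * ∑ i, |(a i : ℝ)| := by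
    have h4 := h.add (m • x - ∑ i, a i • g i) (∑ i, a i • g i)
    rw [sub_add_cancel, h.smul] at h4
    have h5 := h.sum g a
    rw [← hL] at h5
    linarith
  have h4 : (∑ i, |(a i : ℝ)|) / m ≤ δ / (1 + L) + ∑ i, |v i| := by
    rw [Finset.sum_div]
    have h5 : ∀ i, |(a i : ℝ)| / m ≤ |v i - a i / m| + |v i| := by
      intro i
      have h6 := abs_sub_abs_le_abs_sub ((a i : ℝ) / m) (v i)
      rw [abs_div, Nat.abs_cast, abs_sub_comm] at h6
      linarith
    refine (Finset.sum_le_sum fun i _ => h5 i).trans ?_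
    rw [Finset.sum_add_distrib]
    linarith
  have h5 : H x ≤ δ / (1 + L) + L * ((∑ i, |(a i : ℝ)|) / m) := by
    have h8 : δ / (1 + L) + L * ((∑ i, |(a i : ℝ)|) / m) =
        (δ / (1 + L) * m + L * ∑ i, |(a i : ℝ)|) / m := by field_simp
    rw [h8, le_div_iff₀ hm']
    linarith
  have h6 := mul_le_mul_of_nonneg_left h4 hL0
  have h7 : L * (δ / (1 + L)) + δ / (1 + L) = δ := by field_simp; ring
  rw [← hL]
  linarith

theorem Rel.unique (h : Semi H) (hg : IsNormal H g) {x : Γ} {v w : Fin s → ℝ}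
    (hv : Rel H g x v) (hw : Rel H g x w) : v = w := by
  obtain ⟨c, hc, hg⟩ := hg
  have h1 := (hv.add h (hw.neg h)).lower h hc hg
  rw [add_neg_cancel, h.zero] at h1
  have h2 : ∑ i, |(v + -w) i| = 0 := by
    have h3 : 0 ≤ ∑ i, |(v + -w) i| := Finset.sum_nonneg fun i _ => abs_nonneg _
    nlinarith
  funext i
  have h3 := (Finset.sum_eq_zero_iff_of_nonneg fun i _ => abs_nonneg _).1 h2 i (Finset.mem_univ i)
  rw [abs_eq_zero, Pi.add_apply, Pi.neg_apply] at h3
  linarith

/-- the coordinates exist if the family is maximal -/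
theorem exists_rel (h : Semi H) (hg : IsNormal H g)
    (hmax : ∀ g' : Fin (s + 1) → Γ, ¬ IsNormal H g') (x : Γ) : ∃ v, Rel H g x v := by
  obtain ⟨c, hc, hg⟩ := hg
  have h1 : ∀ k : ℕ, ∃ (m : ℕ) (a : Fin s → ℤ), 0 < m ∧
      H (m • x - ∑ i, a i • g i) ≤ c / 2 / (k + 1) * (m + ∑ i, |(a i : ℝ)|) := by
    intro k
    have h2 := hmax (Fin.cons x g)
    unfold IsNormal at h2
    push Not at h2
    have hck : 0 < c / 2 / (k + 1 : ℝ) := by positivity
    have hck' : c / 2 / (k + 1 : ℝ) < c := by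
      rw [div_lt_iff₀ (by positivity)]
      have : (0 : ℝ) ≤ k := Nat.cast_nonneg k
      nlinarith
    obtain ⟨a, ha⟩ := h2 (c / 2 / (k + 1)) hck
    rw [Fin.sum_univ_succ, Fin.sum_univ_succ] at ha
    simp only [Fin.cons_zero, Fin.cons_succ] at ha
    have hb : a 0 ≠ 0 := by
      intro h0
      rw [h0, zero_smul, zero_add, Int.cast_zero, abs_zero, zero_add] at ha
      have h3 := hg fun i => a i.succ
      have h4 : 0 ≤ ∑ i : Fin s, |(a i.succ : ℝ)| := Finset.sum_nonneg fun i _ => abs_nonneg _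
      have h5 := mul_le_mul_of_nonneg_right hck'.le h4
      linarith
    rcases lt_or_gt_of_ne hb with hneg | hpos
    · refine ⟨(-(a 0)).toNat, fun i => a i.succ, by omega, ?_⟩
      have e1 : (((-(a 0)).toNat : ℕ) : ℤ) = -(a 0) := Int.toNat_of_nonneg (by omega)
      have e2 : (((-(a 0)).toNat : ℕ) : ℝ) = |(a 0 : ℝ)| := by
        have e3 : (((-(a 0)).toNat : ℕ) : ℝ) = (((-(a 0)).toNat : ℤ) : ℝ) := by push_cast; rfl
        rw [e3, e1, abs_of_neg (by exact_mod_cast hneg)]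
        push_cast
        rfl
      have e3 : (-(a 0)).toNat • x - ∑ i, a i.succ • g i = -(a 0 • x + ∑ i, a i.succ • g i) := by
        rw [← natCast_zsmul, e1, neg_smul]
        abel
      rw [e2, e3, h.neg]
      exact ha.le
    · refine ⟨(a 0).toNat, fun i => -a i.succ, by omega, ?_⟩
      have e1 : (((a 0).toNat : ℕ) : ℤ) = a 0 := Int.toNat_of_nonneg (by omega)
      have e2 : (((a 0).toNat : ℕ) : ℝ) = |(a 0 : ℝ)| := by
        have e3 : (((a 0).toNat : ℕ) : ℝ) = (((a 0).toNat : ℤ) : ℝ) := by push_cast; rfl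
        rw [e3, e1, abs_of_pos (by exact_mod_cast hpos)]
      have e3 : (a 0).toNat • x - ∑ i, (-a i.succ) • g i = a 0 • x + ∑ i, a i.succ • g i := by
        rw [← natCast_zsmul, e1]
        simp only [neg_smul, Finset.sum_neg_distrib, sub_neg_eq_add]
      have e4 : ∑ i : Fin s, |((-a i.succ : ℤ) : ℝ)| = ∑ i : Fin s, |(a i.succ : ℝ)| :=
        Finset.sum_congr rfl fun i _ => by push_cast; rw [abs_neg]
      rw [e2, e3, e4]
      exact ha.le
  choose m a hm ha using h1
  obtain ⟨B, hB⟩ : ∃ B : ℝ, B = (c / 2 + H x) / (c / 2) := ⟨_, rfl⟩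
  have hB0 : 0 ≤ B := by
    rw [hB]
    have := h.nonneg x
    positivity
  have hbd : ∀ k, ∑ i, |(a k i : ℝ) / m k| ≤ B := by
    intro k
    have hm' : (0 : ℝ) < m k := by exact_mod_cast hm k
    have h2 := hg (a k)
    have e : ∑ i, a k i • g i = m k • x - (m k • x - ∑ i, a k i • g i) := by abel
    have h3 := h.sub (m k • x) (m k • x - ∑ i, a k i • g i)
    rw [← e, h.smul] at h3
    have h4 := ha k
    have hck : c / 2 / (k + 1 : ℝ) ≤ c / 2 := by
      rw [div_le_iff₀ (by positivity)]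
      have : (0 : ℝ) ≤ k := Nat.cast_nonneg k
      nlinarith
    have h5 : 0 ≤ m k + ∑ i, |(a k i : ℝ)| :=
      add_nonneg hm'.le (Finset.sum_nonneg fun i _ => abs_nonneg _)
    have h6 := mul_le_mul_of_nonneg_right hck h5
    have h7 : ∑ i, |(a k i : ℝ) / m k| = (∑ i, |(a k i : ℝ)|) / m k := by
      rw [Finset.sum_div]
      exact Finset.sum_congr rfl fun i _ => by rw [abs_div, Nat.abs_cast]
    rw [h7, hB, div_le_div_iff₀ hm' (by positivity)]
    linarith
  have hball : ∀ k, (fun i => (a k i : ℝ) / m k) ∈ Metric.closedBall (0 : Fin s → ℝ) B := by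
    intro k
    rw [mem_closedBall_zero_iff, pi_norm_le_iff_of_nonneg hB0]
    intro i
    rw [Real.norm_eq_abs]
    exact (Finset.single_le_sum (f := fun i => |(a k i : ℝ) / m k|) (fun i _ => abs_nonneg _)
      (Finset.mem_univ i)).trans (hbd k)
  obtain ⟨v, -, φ, hφ, hlim⟩ := (isCompact_closedBall (0 : Fin s → ℝ) B).tendsto_subseq hball
  refine ⟨v, fun ε hε => ?_⟩
  have h2 : Tendsto (fun k => ∑ i, |v i - (a (φ k) i : ℝ) / m (φ k)|) atTop (𝓝 0) := by
    have h3 : Tendsto (fun k => ∑ i, |v i - (a (φ k) i : ℝ) / m (φ k)|) atTop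
        (𝓝 (∑ i, |v i - v i|)) := by
      refine tendsto_finsetSum _ fun i _ => ?_
      refine (tendsto_const_nhds.sub ?_).abs
      exact (tendsto_pi_nhds.1 hlim) i
    simpa using h3
  have h3 : Tendsto (fun k => c / 2 / ((φ k : ℝ) + 1) * (1 + B)) atTop (𝓝 0) := by
    have h4 : Tendsto (fun k : ℕ => c / 2 / ((k : ℝ) + 1)) atTop (𝓝 0) := by
      have h5 := (tendsto_one_div_add_atTop_nhds_zero_nat (𝕜 := ℝ)).const_mul (c / 2)
      rw [mul_zero] at h5
      refine h5.congr fun k => ?_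
      ring
    have h5 := (h4.comp hφ.tendsto_atTop).mul_const (1 + B)
    rw [zero_mul] at h5
    exact h5
  obtain ⟨k, hk1, hk2⟩ := ((h2.eventually (ge_mem_nhds hε)).and
    (h3.eventually (ge_mem_nhds hε))).exists
  have hm' : (0 : ℝ) < m (φ k) := by exact_mod_cast hm (φ k)
  refine ⟨m (φ k), hm (φ k), a (φ k), hk1, (ha (φ k)).trans ?_⟩
  have h4 := hbd (φ k)
  have h7 : ∑ i, |(a (φ k) i : ℝ) / m (φ k)| = (∑ i, |(a (φ k) i : ℝ)|) / m (φ k) := by
    rw [Finset.sum_div]
    exact Finset.sum_congr rfl fun i _ => by rw [abs_div, Nat.abs_cast]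
  rw [h7, div_le_iff₀ hm'] at h4
  have h5 : 0 ≤ c / 2 / ((φ k : ℝ) + 1) := by positivity
  have h6 := mul_le_mul_of_nonneg_left (show (m (φ k) : ℝ) + ∑ i, |(a (φ k) i : ℝ)| ≤
    (1 + B) * m (φ k) by linarith) h5
  refine h6.trans ?_
  rw [← mul_assoc]
  exact mul_le_mul_of_nonneg_right hk2 hm'.le

/-- **Finite rank.** -/
theorem rank (h : Semi H) (S : ℕ) (hS : ∀ (s : ℕ) (g : Fin s → Γ), IsNormal H g → s ≤ S) :
    ∃ s ≤ S, ∃ (g : Fin s → Γ) (l : Γ →+ (Fin s → ℝ)) (C : ℝ), IsNormal H g ∧ 0 < C ∧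
      (∀ i, l (g i) = Pi.single i 1) ∧
      ∀ x, H x ≤ C * ∑ i, |l x i| ∧ ∑ i, |l x i| ≤ C * H x := by
  classical
  obtain ⟨s, hs, g, hg, hmax⟩ := exists_max h hS
  choose v hv using exists_rel h hg hmax
  have hadd : ∀ x y, v (x + y) = v x + v y := fun x y =>
    (hv (x + y)).unique h hg ((hv x).add h (hv y))
  obtain ⟨c, hc, hgc⟩ := id hg
  refine ⟨s, hs, g, AddMonoidHom.mk' v hadd, max (∑ i, H (g i)) (1 / c), hg,
    lt_max_of_lt_right (by positivity), fun i => ?_, fun x => ⟨?_, ?_⟩⟩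
  · refine (hv (g i)).unique h hg fun ε hε => ⟨1, one_pos, Pi.single i 1, ?_, ?_⟩
    · refine le_trans (le_of_eq (Finset.sum_eq_zero fun k _ => ?_)) hε.le
      rcases eq_or_ne k i with rfl | hki
      · simp
      · simp [hki]
    · have e : (1 : ℕ) • g i - ∑ k, (Pi.single i (1 : ℤ) : Fin s → ℤ) k • g k = 0 := by
        rw [one_smul, Finset.sum_eq_single i]
        · simp
        · intro k _ hki
          simp [hki]
        · intro hi
          exact absurd (Finset.mem_univ i) hi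
      rw [e, h.zero]
      simpa using hε.le
  · refine ((hv x).upper h).trans (mul_le_mul_of_nonneg_right (le_max_left _ _) ?_)
    exact Finset.sum_nonneg fun i _ => abs_nonneg _
  · have h1 := (hv x).lower h hc hgc
    have h2 : ∑ i, |v x i| ≤ 1 / c * H x := by
      rw [div_mul_eq_mul_div, one_mul, le_div_iff₀ hc]
      linarith
    exact h2.trans (mul_le_mul_of_nonneg_right (le_max_right _ _) (h.nonneg x))

/-- a bound for the number of the elements of a normal family -/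
theorem IsNormal.le {s S : ℕ} {g : Fin s → Γ} (hg : IsNormal H g)
    (hS : S < s → ∀ ε : ℝ, 0 < ε → ∃ a : Fin s → ℤ, a ≠ 0 ∧ H (∑ i, a i • g i) < ε) : s ≤ S := by
  by_contra hcon
  obtain ⟨c, hc, hg⟩ := hg
  obtain ⟨a, ha0, ha⟩ := hS (by omega) c hc
  have h1 := hg a
  have h2 : 1 ≤ ∑ i, |(a i : ℝ)| := by
    obtain ⟨i, hi⟩ := Function.ne_iff.1 ha0
    have h3 : (1 : ℝ) ≤ |(a i : ℝ)| := by
      have h4 : 1 ≤ |a i| := Int.one_le_abs hi
      exact_mod_cast h4
    exact h3.trans (Finset.single_le_sum (f := fun i => |(a i : ℝ)|) (fun i _ => abs_nonneg _)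
      (Finset.mem_univ i))
  nlinarith

/-- **The quotient is a lattice** if the values of `H` are discrete at zero. -/
theorem lattice {s : ℕ} {g : Fin s → Γ} {l : Γ →+ (Fin s → ℝ)} {C : ℝ} (h : Semi H) (hC : 0 < C)
    (hg : ∀ i, l (g i) = Pi.single i 1)
    (hl : ∀ x, H x ≤ C * ∑ i, |l x i| ∧ ∑ i, |l x i| ≤ C * H x) {ε : ℝ} (hε : 0 < ε)
    (hd : ∀ x, H x = 0 ∨ ε ≤ H x) :
    ∃ φ : Γ →+ (Fin s → ℤ), Function.Surjective φ ∧ ∀ x, φ x = 0 ↔ H x = 0 := by
  classical
  have hsum : ∀ x, ∑ i, |l x i| ≤ s * ‖l x‖ := by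
    intro x
    have h1 : ∑ i, |l x i| ≤ ∑ _i : Fin s, ‖l x‖ := Finset.sum_le_sum fun i _ => by
      have := norm_le_pi_norm (l x) i
      rwa [Real.norm_eq_abs] at this
    simpa using h1
  have hzero : ∀ x, l x = 0 ↔ H x = 0 := by
    intro x
    constructor
    · intro h0
      have h1 := (hl x).1
      rw [h0] at h1
      simp only [Pi.zero_apply, abs_zero, Finset.sum_const_zero, mul_zero] at h1
      exact le_antisymm h1 (h.nonneg x)
    · intro h0
      have h1 := (hl x).2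
      rw [h0, mul_zero] at h1
      funext i
      have h2 := Finset.single_le_sum (f := fun i => |l x i|) (fun i _ => abs_nonneg _)
        (Finset.mem_univ i)
      exact abs_eq_zero.1 (le_antisymm (h2.trans h1) (abs_nonneg _))
  obtain ⟨L, hL⟩ : ∃ L : Submodule ℤ (Fin s → ℝ), L = l.range.toIntSubmodule := ⟨_, rfl⟩
  have hmem : ∀ v, v ∈ L ↔ ∃ x, l x = v := by
    intro v
    rw [hL]
    exact Iff.rfl
  have : DiscreteTopology L := by
    refine discreteTopology_of_isOpen_singleton_zero ?_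
    rw [Metric.isOpen_singleton_iff]
    refine ⟨ε / (C * (s + 1)), by positivity, ?_⟩
    rintro ⟨v, hv⟩ hdist
    obtain ⟨x, rfl⟩ := (hmem v).1 hv
    have h1 : ‖l x‖ < ε / (C * (s + 1)) := by
      have h2 : dist (⟨l x, hv⟩ : L) 0 = ‖l x‖ := by
        rw [dist_zero_right]
        rfl
      rwa [h2] at hdist
    rw [lt_div_iff₀ (by positivity)] at h1
    have h2 : H x < ε := by
      refine ((hl x).1.trans (mul_le_mul_of_nonneg_left (hsum x) hC.le)).trans_lt ?_
      have h3 : 0 ≤ ‖l x‖ := norm_nonneg _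
      nlinarith
    rcases hd x with h3 | h3
    · exact Subtype.ext ((hzero x).2 h3)
    · linarith
  have : IsZLattice ℝ L := by
    refine ⟨?_⟩
    rw [eq_top_iff]
    intro v _
    have h1 : v = ∑ i, v i • (Pi.single i (1 : ℝ) : Fin s → ℝ) := by
      conv_lhs => rw [← Finset.univ_sum_single v]
      refine Finset.sum_congr rfl fun i _ => ?_
      rw [← Pi.single_smul, smul_eq_mul, mul_one]
    rw [h1]
    refine Submodule.sum_mem _ fun i _ => Submodule.smul_mem _ _ (Submodule.subset_span ?_)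
    exact (hmem _).2 ⟨g i, hg i⟩
  have : Module.Free ℤ L := ZLattice.module_free ℝ L
  have : Module.Finite ℤ L := ZLattice.module_finite ℝ L
  have hfin : Module.finrank ℤ L = s := by
    rw [ZLattice.rank ℝ L, Module.finrank_fintype_fun_eq_card, Fintype.card_fin]
  obtain ⟨b⟩ : Nonempty (Module.Basis (Fin s) ℤ L) := ⟨Module.finBasisOfFinrankEq ℤ L hfin⟩
  obtain ⟨f, hf⟩ : ∃ f : Γ →+ L, ∀ x, (f x : Fin s → ℝ) = l x :=
    ⟨AddMonoidHom.mk' (fun x => ⟨l x, (hmem _).2 ⟨x, rfl⟩⟩) fun x y => Subtype.ext (map_add l x y),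
      fun x => rfl⟩
  refine ⟨(b.equivFun : L →+ (Fin s → ℤ)).comp f, ?_, fun x => ?_⟩
  · refine (b.equivFun.surjective).comp ?_
    rintro ⟨v, hv⟩
    obtain ⟨x, hx⟩ := (hmem v).1 hv
    exact ⟨x, Subtype.ext (by rw [hf, hx])⟩
  · rw [← hzero]
    change b.equivFun (f x) = 0 ↔ _
    rw [LinearEquiv.map_eq_zero_iff, ← hf]
    exact ⟨fun h0 => by rw [h0]; rfl, fun h0 => Subtype.ext h0⟩

end Pool.Agent.U492.ER
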