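import Pool.Agent.T2H06.DYG.Main
import Pool.Agent.U492.ER.Rank

/-!
# The dynamical degrees of commuting birational self-maps
-/

set_option autoImplicit false

open FF Module MvPolynomial Filter Topology Pool.Agent.W602.GT Pool.Agent.W603.LV Pool.Agent.W619.PQ
open Pool.Agent.Y172 Pool.Agent.Y191 Pool.Agent.R887
open Pool.Agent.T2H06.DYN (ulim ulim_spec MM Dom im im_im im_refl im_fg VH VS Lor LD tri tri_card
  exists_lin exists_trans exists_hyp_dom VH_fg VS_fg VS_mono DynDegree iterDegrees)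
open Pool.Agent.T2H06 Pool.Agent.T2H06.DYG

namespace Pool.Agent.U492.ER

/-- concave sequences: the supergradient -/
theorem increments {n : ℕ} {f : ℕ → ℝ} (hf : ∀ i, i + 2 ≤ n → f i + f (i + 2) ≤ 2 * f (i + 1))
    {i j : ℕ} (hij : i ≤ j) : j + 1 ≤ n → f (j + 1) - f j ≤ f (i + 1) - f i := by
  induction j, hij using Nat.le_induction with
  | base => exact fun _ => le_rfl
  | succ j _ ih =>
    intro hj
    have h1 := hf j (by omega)
    have h2 := ih (by omega)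
    linarith

theorem forward {n : ℕ} {f : ℕ → ℝ} (hf : ∀ i, i + 2 ≤ n → f i + f (i + 2) ≤ 2 * f (i + 1))
    (q : ℕ) : ∀ k, q + 1 + k ≤ n → f (q + 1 + k) ≤ f (q + 1) + k * (f (q + 1) - f q) := by
  intro k
  induction k with
  | zero => intro _; simp
  | succ k ih =>
    intro hk
    have h1 := ih (by omega)
    have h2 := increments hf (i := q) (j := q + 1 + k) (by omega) (by omega)
    have e : q + 1 + (k + 1) = q + 1 + k + 1 := by omega
    rw [e]
    push_cast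
    linarith

theorem backward {n : ℕ} {f : ℕ → ℝ} (hf : ∀ i, i + 2 ≤ n → f i + f (i + 2) ≤ 2 * f (i + 1))
    {q : ℕ} (hq : q + 1 ≤ n) : ∀ k, k ≤ q → f (q + 1) ≥ f (q - k) + (k + 1) * (f (q + 1) - f q) := by
  intro k
  induction k with
  | zero => intro _; simp
  | succ k ih =>
    intro hk
    have h1 := ih (by omega)
    have h2 := increments hf (i := q - (k + 1)) (j := q) (by omega) (by omega)
    have e : q - (k + 1) + 1 = q - k := by omega
    rw [e] at h2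
    push_cast
    linarith

/-- the middle values of a concave sequence -/
theorem middle {n : ℕ} {f : ℕ → ℝ} (hf : ∀ i, i + 2 ≤ n → f i + f (i + 2) ≤ 2 * f (i + 1))
    (hn : 0 ≤ f n) (h1 : 0 ≤ f 1) {p : ℕ} (hp : 0 < p) (hpn : p < n) : f 1 ≤ n * f p := by
  obtain ⟨q, rfl⟩ : ∃ q, p = q + 1 := ⟨p - 1, by omega⟩
  rcases Nat.eq_zero_or_pos q with rfl | hq
  · have : (1 : ℝ) ≤ n := by exact_mod_cast (show 1 ≤ n by omega)
    simp only [zero_add]
    nlinarith
  obtain ⟨k, hk⟩ : ∃ k, n = q + 1 + k := ⟨n - (q + 1), by omega⟩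
  have h2 := forward hf q k (by omega)
  rw [← hk] at h2
  have h3 := backward hf (q := q) (by omega) (q - 1) (by omega)
  have e1 : q - (q - 1) = 1 := by omega
  rw [e1] at h3
  have e2 : ((q - 1 : ℕ) : ℝ) + 1 = q := by
    have : q - 1 + 1 = q := by omega
    exact_mod_cast this
  rw [e2] at h3
  have hk1 : (1 : ℝ) ≤ k := by exact_mod_cast (show 1 ≤ k by omega)
  have hq1 : (1 : ℝ) ≤ q := by exact_mod_cast hq
  have h4 : (0 : ℝ) ≤ q * f n := by positivity
  have h5 := mul_le_mul_of_nonneg_left h2 (show (0 : ℝ) ≤ q by linarith)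
  have h6 := mul_le_mul_of_nonneg_left h3.le (show (0 : ℝ) ≤ k by linarith)
  have hnr : (n : ℝ) = q + 1 + k := by rw [hk]; push_cast; ring
  have h7 : (k : ℝ) * f 1 ≤ (q + k) * f (q + 1) := by nlinarith
  have h8 : f 1 ≤ k * f 1 := by nlinarith
  have h9 : 0 ≤ f (q + 1) := by
    by_contra h10
    push Not at h10
    have : (0 : ℝ) < q + k := by linarith
    nlinarith
  rw [hnr]
  nlinarith

theorem exch_of {Γ : Type} [AddCommGroup Γ] {n : ℕ} (hn0 : 0 < n) {F : Multiset Γ → ℝ}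
    (h : GLor n F) (s : Fin (n - 1 + 2) → Γ) : ∃ b : Fin (n - 1 + 2) → ℝ,
      ∀ (t : Γ) (i : Fin (n - 1 + 2)), ∃ j, j ≠ i ∧
        b i + cc n F (s i - t) ≤ b j + cc n F (s j - t) := by
  obtain ⟨k, rfl⟩ : ∃ k, n = k + 1 := ⟨n - 1, by omega⟩
  exact cc_exch h s

section

variable {K : Type} [Field K] [Algebra ℂ K] {N : ℕ} {y : Fin (N + 1) → K} {n : ℕ}

/-- the degrees -/
def degs (y : Fin (N + 1) → K) (g : K ≃ₐ[ℂ] K) (p q : ℕ) : Set ℕ :=
  {d | ∃ (u : Fin p → K) (v : Fin q → K), (∀ a, IsPencil y (u a)) ∧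
    (∀ a, IsPencil y (v a)) ∧ degreeOver (fun a => g (u a)) v = d}

theorem degs_inv (g : K ≃ₐ[ℂ] K) (p q : ℕ) : degs y g⁻¹ p q ⊆ degs y g q p := by
  rintro d ⟨u, v, hu, hv, rfl⟩
  refine ⟨v, u, hv, hu, ?_⟩
  have e := DYN.md_map g (Finset.univ.val.map v + Finset.univ.val.map fun a => g⁻¹ (u a))
  rw [DYN.degreeOver_md, DYN.degreeOver_md, ← e, Multiset.map_add,
    Multiset.map_map, Multiset.map_map, add_comm]
  congr 2
  congr 1
  funext a
  simp only [Function.comp_apply]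
  exact (g.apply_symm_apply (u a)).symm

theorem degs_inv' (g : K ≃ₐ[ℂ] K) (p q : ℕ) : degs y g⁻¹ p q = degs y g q p := by
  refine Set.Subset.antisymm (degs_inv g p q) ?_
  have := degs_inv (y := y) g⁻¹ q p
  rwa [inv_inv] at this

theorem iter_inv (g : K ≃ₐ[ℂ] K) {p : ℕ} (hp : p ≤ n) (m : ℕ) :
    iterDegrees y n g⁻¹ p m = iterDegrees y n g (n - p) m := by
  have h1 : ∀ (g : K ≃ₐ[ℂ] K) (p : ℕ), iterDegrees y n g p m = degs y (g ^ m) p (n - p) :=
    fun _ _ => rfl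
  rw [h1, h1, inv_pow, degs_inv', Nat.sub_sub_self hp]

theorem dyn_inv (g : K ≃ₐ[ℂ] K) {p : ℕ} (hp : p ≤ n) {δ : ℝ} :
    DynDegree y n g⁻¹ p δ ↔ DynDegree y n g (n - p) δ := by
  unfold DynDegree
  simp only [iter_inv g hp]

/-- the growth function of a commutative group of birational maps -/
theorem exists_growth {Γ : Type} [AddCommGroup Γ] {ρ : Γ → (K ≃ₐ[ℂ] K)}
    (hρ : ∀ s t, ρ (s + t) = ρ s * ρ t)
    (hy : NormalModel y) (hn : Algebra.trdeg ℂ K = n) (hn0 : 0 < n) (hcan : Canonical y n) :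
    ∃ c : Γ → ℝ, (∀ a b, c (a + b) ≤ c a + c b) ∧ (∀ (k : ℕ) a, c (k • a) = k * c a) ∧
      (∀ a, 0 ≤ c a) ∧ (∀ s : Fin (n - 1 + 2) → Γ, ∃ b : Fin (n - 1 + 2) → ℝ,
        ∀ (t : Γ) (i : Fin (n - 1 + 2)), ∃ j, j ≠ i ∧ b i + c (s i - t) ≤ b j + c (s j - t)) ∧
      ∀ a, ∃ d : ℕ → ℝ, d 1 = c a ∧ (∀ p ≤ n, d p ≤ p * d 1) ∧ (∀ p ≤ n, 0 ≤ d p) ∧
        (∀ i, i + 2 ≤ n → d i + d (i + 2) ≤ 2 * d (i + 1)) ∧
        ∀ p ≤ n, ∀ δ, DynDegree y n (ρ a) p δ ↔ δ = Real.exp (d p) := by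
  classical
  obtain ⟨i, hi⟩ := hy.ne
  obtain ⟨A, hA, hAP⟩ := exists_hyp hy hi
  obtain ⟨x, E, hx, hE⟩ := exists_crd hn (k := ℂ) (K := K)
  have hfr : IsFrame E := fun F => ⟨fun j => F (x j),
    (Pool.Agent.W73.PG.PULL.expand x hx E hE F).symm⟩
  obtain ⟨M, β, hF⟩ := exists_gfam hρ hy hn hn0 hcan hx hE hfr hi hA hAP
  have hμ : ∀ k : ℕ, 1 ≤ (fun _ : ℕ => 1) k := fun _ => le_rfl
  obtain ⟨M₁, β₁, hF₁⟩ := DYN.exists_fam hy hn hn0 hcan hx hE hfr hi hA hAP 1
  have hpos : 0 < GG ρ (VH y) (fun m b => VS y n m (b • A) E) (fun _ => 1) 0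
      (Multiset.replicate (n - 0) 0) := by
    rw [GG_zero hF hμ (by rw [Multiset.card_replicate, Nat.sub_zero]), Multiset.map_replicate,
      AA_zero hF]
    have h1 := DYN.MM_pos hy hn hF₁ (s := Multiset.replicate (n - 0) 0)
      (by rw [Multiset.card_replicate, Nat.sub_zero])
    rw [Multiset.map_replicate, DYN.AA_zero] at h1
    exact_mod_cast h1
  have hallpos := GG_pos hF hμ hpos (Nat.zero_le n)
  have hlor := glor hF hμ (Nat.zero_le n) (hallpos 0 le_rfl)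
  rw [Nat.sub_zero] at hlor
  refine ⟨cc n (GG ρ (VH y) (fun m b => VS y n m (b • A) E) (fun _ => 1) 0), cc_add hlor hn0,
    fun k a => cc_smul hlor hn0 a k, cc_nonneg hlor hn0, ?_, fun a => ?_⟩
  · exact exch_of hn0 hlor
  · obtain ⟨M₂, β₂, hF₂⟩ := DYN.exists_fam hy hn hn0 hcan hx hE hfr hi hA hAP (ρ a)
    have hMM : ∀ s : Multiset ℤ, s.card = n →
        GG ρ (VH y) (fun m b => VS y n m (b • A) E) (fun _ => 1) 0
        (s.map fun k => k • a) = MM (s.map (DYN.AA (ρ a) (VH y))) := by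
      intro s hs
      rw [GG_zero hF hμ (by rw [Multiset.card_map, hs]), Multiset.map_map]
      congr 3
      funext k
      simp only [Function.comp_apply]
      unfold AA DYN.AA
      rw [rho_zsmul hρ]
    have hlor0 := hlor.cyc a
    have hex : ∀ p, ∃ d : ℝ, p ≤ n → Tendsto (fun m : ℕ => LD (fun s : Multiset ℤ =>
        GG ρ (VH y) (fun m b => VS y n m (b • A) E) (fun _ => 1) 0 (s.map fun k => k • a)) n p m / m)
          atTop (𝓝 d) := by
      intro p
      by_cases hp : p ≤ n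
      · obtain ⟨d, hd⟩ := hlor0.exists_rate (p := p) (by omega)
        exact ⟨d, fun _ => hd⟩
      · exact ⟨0, fun h => absurd h hp⟩
    choose d hd using hex
    have hposm : ∀ p ≤ n, ∀ m : ℕ, 0 < MM ((tri m 0 0 p 0 (n - p)).map (DYN.AA (ρ a) (VH y))) :=
      fun p hp m => DYN.MM_pos hy hn hF₂ (by rw [tri_card]; omega)
    have hlog : ∀ p ≤ n, Tendsto (fun m : ℕ =>
        Real.log (MM ((tri m 0 0 p 0 (n - p)).map (DYN.AA (ρ a) (VH y))) : ℕ) / m) atTop
          (𝓝 (d p)) := by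
      intro p hp
      refine (hd p hp).congr fun m => ?_
      have h6 := hMM (tri m 0 0 p 0 (n - p)) (by rw [tri_card]; omega)
      unfold LD
      beta_reduce
      rw [h6]
    refine ⟨d, tendsto_nhds_unique (hd 1 (by omega)) (cc_lim hlor hn0 a),
      rate_linear hlor0 hd, fun p hp => ?_, fun i hi => rate_concave hlor0 hd hi,
      fun p hp δ => ⟨?_, ?_⟩⟩
    · refine ge_of_tendsto' (hlog p hp) fun m => ?_
      have h1 : (1 : ℝ) ≤ MM ((tri m 0 0 p 0 (n - p)).map (DYN.AA (ρ a) (VH y))) := by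
        exact_mod_cast hposm p hp m
      exact div_nonneg (Real.log_nonneg h1) (Nat.cast_nonneg _)
    · rintro ⟨D, hD, hlim⟩
      have hDm : ∀ m, D m = MM ((tri m 0 0 p 0 (n - p)).map (DYN.AA (ρ a) (VH y))) := fun m =>
        (hD m).unique (DYN.isGreatest_iter hn hF₂ hp m (hposm p hp m))
      have h3 : Tendsto (fun m : ℕ => Real.log (D m) / m) atTop (𝓝 (d p)) := by
        refine (hlog p hp).congr fun m => ?_
        rw [hDm]
      exact tendsto_nhds_unique hlim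
        (DYN.tendsto_root (fun m => by rw [hDm]; exact hposm p hp m) h3)
    · rintro rfl
      exact ⟨_, fun m => DYN.isGreatest_iter hn hF₂ hp m (hposm p hp m),
        DYN.tendsto_root (hposm p hp) (hlog p hp)⟩

end

end Pool.Agent.U492.ER
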