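import Pool.Agent.U492.ER.Rank

/-!
# Homomorphisms `ℤ^r → ℝ^s` without small values
-/

set_option autoImplicit false

open Module

namespace Pool.Agent.U492.ER

theorem sum_abs_le {s : ℕ} (v : Fin s → ℝ) : ∑ i, |v i| ≤ s * ‖v‖ := by
  have h1 : ∑ i, |v i| ≤ ∑ _i : Fin s, ‖v‖ := Finset.sum_le_sum fun i _ => by
    have := norm_le_pi_norm v i
    rwa [Real.norm_eq_abs] at this
  simpa using h1

theorem le_of_pos {r s : ℕ} (T : (Fin r → ℤ) →+ (Fin s → ℝ)) {η : ℝ} (hη : 0 < η)
    (h : ∀ a, a ≠ 0 → η ≤ ∑ i, |T a i|) : r ≤ s := by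
  classical
  obtain ⟨T', hT'⟩ : ∃ T' : (Fin r → ℤ) →ₗ[ℤ] (Fin s → ℝ), ∀ a, T' a = T a :=
    ⟨T.toIntLinearMap, fun _ => rfl⟩
  have hinj : Function.Injective T' := by
    rw [← LinearMap.ker_eq_bot, LinearMap.ker_eq_bot']
    intro a ha
    by_contra ha0
    have h1 := h a ha0
    rw [← hT', ha] at h1
    simp only [Pi.zero_apply, abs_zero, Finset.sum_const_zero] at h1
    linarith
  have hdisc : DiscreteTopology (LinearMap.range T') := by
    refine discreteTopology_of_isOpen_singleton_zero ?_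
    rw [Metric.isOpen_singleton_iff]
    refine ⟨η / (s + 1), by positivity, ?_⟩
    rintro ⟨v, hv⟩ hdist
    obtain ⟨a, rfl⟩ := hv
    have h1 : ‖T' a‖ < η / (s + 1) := by
      have h2 : dist (⟨T' a, ⟨a, rfl⟩⟩ : LinearMap.range T') 0 = ‖T' a‖ := by
        rw [dist_zero_right]
        rfl
      rwa [h2] at hdist
    rw [lt_div_iff₀ (by positivity)] at h1
    have h2 : ∑ i, |T a i| < η := by
      rw [← hT']
      refine (sum_abs_le _).trans_lt ?_
      have h3 : 0 ≤ ‖T' a‖ := norm_nonneg _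
      nlinarith
    by_cases ha : a = 0
    · subst ha
      exact Subtype.ext (map_zero T')
    · exact absurd (h a ha) (not_le.2 h2)
  have h1 := Real.finrank_eq_int_finrank_of_discrete (s := (LinearMap.range T' : Set (Fin s → ℝ)))
    (by rw [Submodule.span_eq]; exact hdisc)
  unfold Set.finrank at h1
  rw [Submodule.span_eq, LinearMap.finrank_range_of_inj hinj, Module.finrank_fintype_fun_eq_card,
    Fintype.card_fin] at h1
  rw [← h1]
  refine (Submodule.finrank_le _).trans ?_
  rw [Module.finrank_fintype_fun_eq_card, Fintype.card_fin]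

end Pool.Agent.U492.ER
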