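import Pool.Agent.U492.ER.Defs
import Pool.Agent.U492.ER.Geo
import Pool.Agent.U492.ER.Low

/-!
# The entropy rank of a commutative group of birational maps: existence and bounds
-/

set_option autoImplicit false

open FF Module MvPolynomial Filter Topology Pool.Agent.W602.GT Pool.Agent.W603.LV Pool.Agent.W619.PQ
open Pool.Agent.Y172 Pool.Agent.Y191 Pool.Agent.R887
open Pool.Agent.T2H06.DYN (DynDegree iterDegrees)
open Pool.Agent.T2H06 Pool.Agent.T2H06.DYG

namespace Pool.Agent.U492.ER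

section

variable {K : Type} [Field K] [Algebra ℂ K] {N : ℕ} {y : Fin (N + 1) → K} {n : ℕ}
  {Γ : Type} [AddCommGroup Γ] {ρ : Γ → (K ≃ₐ[ℂ] K)}

theorem rho_neg (hρ : ∀ s t, ρ (s + t) = ρ s * ρ t) (a : Γ) : ρ (-a) = (ρ a)⁻¹ := by
  have h1 := rho_zsmul hρ a (-1)
  rwa [neg_smul, one_smul, zpow_neg_one] at h1

/-- the data of a growth function -/
structure Growth (y : Fin (N + 1) → K) (n : ℕ) (ρ : Γ → (K ≃ₐ[ℂ] K)) (c : Γ → ℝ) : Prop where
  add : ∀ a b, c (a + b) ≤ c a + c b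
  smul : ∀ (k : ℕ) a, c (k • a) = k * c a
  nonneg : ∀ a, 0 ≤ c a
  neg : ∀ a, c (-a) ≤ n * c a
  exch : ∀ s : Fin (n - 1 + 2) → Γ, ∃ b : Fin (n - 1 + 2) → ℝ,
    ∀ (t : Γ) (i : Fin (n - 1 + 2)), ∃ j, j ≠ i ∧ b i + c (s i - t) ≤ b j + c (s j - t)
  exists_deg : ∀ a, ∀ p ≤ n, ∃ δ, 1 ≤ δ ∧ DynDegree y n (ρ a) p δ
  one_le : ∀ a, ∀ p ≤ n, ∀ δ, DynDegree y n (ρ a) p δ → 1 ≤ δ
  one : ∀ a δ, DynDegree y n (ρ a) 1 δ → Real.log δ = c a
  upper : ∀ a, ∀ p ≤ n, ∀ δ, DynDegree y n (ρ a) p δ → Real.log δ ≤ n * c a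
  lower : ∀ a p, 0 < p → p < n → ∀ δ, DynDegree y n (ρ a) p δ → c a ≤ n * Real.log δ

theorem growth (hρ : ∀ s t, ρ (s + t) = ρ s * ρ t) (hy : NormalModel y)
    (hn : Algebra.trdeg ℂ K = n) (hn2 : 2 ≤ n) (hcan : Canonical y n) :
    ∃ c, Growth y n ρ c := by
  obtain ⟨c, hadd, hsmul, hnn, hex, hd⟩ := exists_growth hρ hy hn (by omega) hcan
  choose d hd1 hdlin hdnn hdc hdd using hd
  have hle : ∀ a, ∀ p ≤ n, d a p ≤ n * c a := by
    intro a p hp
    refine (hdlin a p hp).trans ?_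
    rw [hd1]
    exact mul_le_mul_of_nonneg_right (by exact_mod_cast hp) (hnn a)
  refine ⟨c, hadd, hsmul, hnn, fun a => ?_, hex, fun a p hp => ?_, fun a p hp δ h => ?_,
    fun a δ h => ?_, fun a p hp δ h => ?_, fun a p hp hpn δ h => ?_⟩
  · have h1 : DynDegree y n (ρ (-a)) 1 (Real.exp (d (-a) 1)) := (hdd _ 1 (by omega) _).2 rfl
    rw [rho_neg hρ, dyn_inv _ (by omega)] at h1
    have h2 := (hdd a (n - 1) (by omega) _).1 h1
    have h3 := Real.exp_injective h2
    rw [← hd1 (-a), h3]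
    exact hle a (n - 1) (by omega)
  · exact ⟨_, Real.one_le_exp (hdnn a p hp), (hdd a p hp _).2 rfl⟩
  · rw [(hdd a p hp δ).1 h]
    exact Real.one_le_exp (hdnn a p hp)
  · rw [(hdd a 1 (by omega) δ).1 h, Real.log_exp, hd1]
  · rw [(hdd a p hp δ).1 h, Real.log_exp]
    exact hle a p hp
  · rw [(hdd a p hpn.le δ).1 h, Real.log_exp, ← hd1]
    exact middle (hdc a) (hdnn a n le_rfl) (hdnn a 1 (by omega)) hp hpn

theorem Growth.semi {c : Γ → ℝ} (h : Growth y n ρ c) : Semi (fun a => c a + c (-a)) where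
  add a b := by
    have h1 := h.add a b
    have h2 := h.add (-a) (-b)
    have e : -(a + b) = -a + -b := neg_add a b
    simp only [e]
    linarith
  smul k a := by
    have e : -(k • a) = k • (-a) := (smul_neg k a).symm
    simp only [e, h.smul]
    ring
  neg a := by
    simp only [neg_neg]
    ring

theorem Growth.comp {c : Γ → ℝ} (h : Growth y n ρ c) {r : ℕ} (f : Fin r → Γ) (hr : n - 1 < r)
    {ε : ℝ} (hε : 0 < ε) : ∃ a : Fin r → ℤ, a ≠ 0 ∧ c (∑ i, a i • f i) < ε := by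
  have hcomb : ∀ a b : Fin r → ℤ, ∑ i, (a + b) i • f i = ∑ i, a i • f i + ∑ i, b i • f i := by
    intro a b
    rw [← Finset.sum_add_distrib]
    exact Finset.sum_congr rfl fun i _ => by rw [Pi.add_apply, add_smul]
  have hsub : SubL r (fun a => c (∑ i, a i • f i)) := by
    refine ⟨?_, fun a b => ?_, fun k a => ?_, fun a => h.nonneg _⟩
    · have := h.smul 0 0
      simpa using this
    · simp only [hcomb]
      exact h.add _ _
    · have e : ∑ i, (k • a) i • f i = k • ∑ i, a i • f i := by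
        rw [Finset.smul_sum]
        exact Finset.sum_congr rfl fun i _ => by
          rw [Pi.smul_apply, smul_assoc]
      simp only [e]
      exact h.smul _ _
  refine small (N := n - 1) hsub (fun s => ?_) (by omega) hε
  obtain ⟨b, hb⟩ := h.exch fun i => ∑ k, s i k • f k
  refine ⟨b, fun t i => ?_⟩
  obtain ⟨j, hj, hle⟩ := hb (∑ k, t k • f k) i
  refine ⟨j, hj, ?_⟩
  have e : ∀ i, ∑ k, (s i - t) k • f k = ∑ k, s i k • f k - ∑ k, t k • f k := by
    intro i
    rw [← Finset.sum_sub_distrib]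
    exact Finset.sum_congr rfl fun k _ => by rw [Pi.sub_apply, sub_smul]
  simp only [e]
  exact hle

/-- a zero growth function -/
theorem Growth.eq_zero_iff {c : Γ → ℝ} (h : Growth y n ρ c) (hn2 : 2 ≤ n) (a : Γ) :
    c a + c (-a) = 0 ↔ ∀ p ≤ n, ∀ δ, DynDegree y n (ρ a) p δ → δ = 1 := by
  constructor
  · intro h0 p hp δ hδ
    have h1 := h.nonneg a
    have h2 := h.nonneg (-a)
    have h3 : c a = 0 := by linarith
    have h4 := h.upper a p hp δ hδ
    have h5 := h.one_le a p hp δ hδ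
    rw [h3, mul_zero] at h4
    by_contra h6
    have h7 : 1 < δ := lt_of_le_of_ne h5 (Ne.symm h6)
    have := Real.log_pos h7
    linarith
  · intro h0
    obtain ⟨δ, h1, h2⟩ := h.exists_deg a 1 (by omega)
    have h3 := h0 1 (by omega) δ h2
    have h4 := h.one a δ h2
    rw [h3, Real.log_one] at h4
    have h5 := h.neg a
    have h6 := h.nonneg (-a)
    rw [← h4, mul_zero] at h5
    linarith

/-- the existence of the rank -/
theorem exists_rank (hρ : ∀ s t, ρ (s + t) = ρ s * ρ t) (hy : NormalModel y)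
    (hn : Algebra.trdeg ℂ K = n) (hn2 : 2 ≤ n) (hcan : Canonical y n) :
    ∃ s, HasEntropyRank y n ρ s := by
  obtain ⟨c, hc⟩ := growth hρ hy hn hn2 hcan
  have hs := hc.semi
  obtain ⟨s, -, g, l, C, -, hC, hg, hl⟩ := rank hs (n - 1) (by
    intro s g hg
    refine hg.le fun hlt ε hε => ?_
    have hn' : (0 : ℝ) < n + 1 := by positivity
    obtain ⟨a, ha0, ha⟩ := hc.comp g hlt (ε := ε / (n + 1)) (by positivity)
    refine ⟨a, ha0, ?_⟩
    have h1 := hc.neg (∑ i, a i • g i)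
    rw [lt_div_iff₀ hn'] at ha
    linarith)
  have hn' : (2 : ℝ) ≤ n := by exact_mod_cast hn2
  refine ⟨s, g, l, C * (n + 1) * n, by positivity, hg,
    fun x p δ hδ => ⟨fun hp => ?_, fun hp hpn => ?_⟩⟩
  · have h1 := hc.upper x p hp δ hδ
    have h2 := (hl x).1
    have h3 := hc.nonneg x
    have h4 := hc.nonneg (-x)
    have h5 : 0 ≤ ∑ i, |l x i| := Finset.sum_nonneg fun i _ => abs_nonneg _
    have h6 : (n : ℝ) * c x ≤ n * (C * ∑ i, |l x i|) :=
      mul_le_mul_of_nonneg_left (by linarith) (by linarith)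
    have h7 : 0 ≤ (n : ℝ) * (C * ∑ i, |l x i|) := by positivity
    have h8 : C * (n + 1) * n * ∑ i, |l x i| = (n + 1) * ((n : ℝ) * (C * ∑ i, |l x i|)) := by ring
    rw [h8]
    nlinarith
  · have h1 := hc.lower x p hp hpn δ hδ
    have h2 := (hl x).2
    have h3 := hc.neg x
    have h5 : c x + c (-x) ≤ (n + 1) * (n * Real.log δ) := by
      have h6 : c x + c (-x) ≤ (n + 1) * c x := by linarith
      exact h6.trans (mul_le_mul_of_nonneg_left h1 (by linarith))
    have h6 := mul_le_mul_of_nonneg_left h5 hC.le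
    have h7 : C * ((n + 1) * (n * Real.log δ)) = C * (n + 1) * n * Real.log δ := by ring
    linarith

/-- free subgroups with entropy bounded from below -/
theorem HasEntropyRank.le {s : ℕ} (h : HasEntropyRank y n ρ s) {c : Γ → ℝ} (hc : Growth y n ρ c)
    {r : ℕ} (f : Fin r → Γ) {ε : ℝ} (hε : 0 < ε)
    (hf : ∀ a : Fin r → ℤ, a ≠ 0 → ∃ p ≤ n, ∃ δ, 1 + ε ≤ δ ∧
      DynDegree y n (ρ (∑ i, a i • f i)) p δ) : r ≤ s := by
  obtain ⟨g, l, C, hC, -, hl⟩ := h
  obtain ⟨T, hT⟩ : ∃ T : (Fin r → ℤ) →+ (Fin s → ℝ), ∀ a, T a = l (∑ i, a i • f i) := by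
    refine ⟨AddMonoidHom.mk' (fun a => l (∑ i, a i • f i)) fun a b => ?_, fun a => rfl⟩
    rw [← map_add, ← Finset.sum_add_distrib]
    congr 1
    exact Finset.sum_congr rfl fun i _ => by rw [Pi.add_apply, add_smul]
  refine le_of_pos T (η := Real.log (1 + ε) / C) (div_pos (Real.log_pos (by linarith)) hC)
    fun a ha => ?_
  obtain ⟨p, hp, δ, hδ, hdyn⟩ := hf a ha
  have h1 := (hl _ p δ hdyn).1 hp
  have h2 := Real.log_le_log (by linarith) hδ
  rw [div_le_iff₀ hC, hT]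
  linarith

/-- the free subgroup of maximal rank -/
theorem HasEntropyRank.exists_free {s : ℕ} (h : HasEntropyRank y n ρ s) {c : Γ → ℝ}
    (hc : Growth y n ρ c) (hn2 : 2 ≤ n) : ∃ (g : Fin s → Γ) (ε : ℝ), 0 < ε ∧
      ∀ a : Fin s → ℤ, a ≠ 0 → ε ≤ c (∑ i, a i • g i) := by
  classical
  obtain ⟨g, l, C, hC, hg, hl⟩ := h
  refine ⟨g, 1 / C, by positivity, fun a ha => ?_⟩
  obtain ⟨δ, -, hδ⟩ := hc.exists_deg (∑ i, a i • g i) 1 (by omega)
  have h1 := (hl _ 1 δ hδ).2 one_pos (by omega)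
  rw [hc.one _ δ hδ] at h1
  have h2 : l (∑ i, a i • g i) = fun i => (a i : ℝ) := by
    rw [map_sum]
    funext k
    rw [Finset.sum_apply, Finset.sum_eq_single k]
    · rw [map_zsmul, hg]
      simp
    · intro i _ hik
      rw [map_zsmul, hg]
      simp [hik.symm]
    · intro hk
      exact absurd (Finset.mem_univ k) hk
  rw [h2] at h1
  have h3 : 1 ≤ ∑ i, |(a i : ℝ)| := by
    obtain ⟨i, hi⟩ := Function.ne_iff.1 ha
    have h3 : (1 : ℝ) ≤ |(a i : ℝ)| := by
      have h4 : 1 ≤ |a i| := Int.one_le_abs hi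
      exact_mod_cast h4
    exact h3.trans (Finset.single_le_sum (f := fun i => |(a i : ℝ)|) (fun i _ => abs_nonneg _)
      (Finset.mem_univ i))
  rw [div_le_iff₀ hC]
  linarith

theorem HasEntropyRank.unique {s s' : ℕ} (h : HasEntropyRank y n ρ s)
    (h' : HasEntropyRank y n ρ s') {c : Γ → ℝ} (hc : Growth y n ρ c) (hn2 : 2 ≤ n) : s ≤ s' := by
  obtain ⟨g, ε, hε, hg⟩ := h.exists_free hc hn2
  refine h'.le hc g (ε := Real.exp ε - 1) (by
    have := Real.add_one_lt_exp hε.ne'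
    linarith) fun a ha => ?_
  obtain ⟨δ, h1, hδ⟩ := hc.exists_deg (∑ i, a i • g i) 1 (by omega)
  refine ⟨1, by omega, δ, ?_, hδ⟩
  have h2 := hg a ha
  rw [← hc.one _ δ hδ] at h2
  have h3 := Real.exp_le_exp.2 h2
  rw [Real.exp_log (by linarith)] at h3
  linarith

/-- the bound for the rank -/
theorem HasEntropyRank.le_of_numDim {s : ℕ} (h : HasEntropyRank y n ρ s)
    (hρ : ∀ s t, ρ (s + t) = ρ s * ρ t) (hy : NormalModel y)
    (hn : Algebra.trdeg ℂ K = n) (hn2 : 2 ≤ n) (hcan : Canonical y n) {c : Γ → ℝ}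
    (hc : Growth y n ρ c) :
    s ≤ n - 1 ∧ ∀ j ≤ n, ¬ NumDimLt y n 0 j → s ≤ n - j - 1 := by
  obtain ⟨g, ε, hε, hg⟩ := h.exists_free hc hn2
  refine ⟨?_, fun j hj hnd => ?_⟩
  · by_contra hlt
    obtain ⟨a, ha0, ha⟩ := hc.comp g (by omega) hε
    have := hg a ha0
    linarith
  · by_contra hlt
    obtain ⟨a, ha0, ha⟩ := commuting (r := s) (by omega) (ρ := fun a => ρ (∑ i, a i • g i))
      (fun a b => by
        rw [← hρ, ← Finset.sum_add_distrib]
        congr 1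
        exact Finset.sum_congr rfl fun i _ => by rw [Pi.add_apply, add_smul])
      hy hn (by omega) hcan hj (by omega) hnd (ε := Real.exp ε - 1) (by
        have := Real.add_one_lt_exp hε.ne'
        linarith)
    obtain ⟨δ, h1, hδ⟩ := hc.exists_deg (∑ i, a i • g i) 1 (by omega)
    have h2 := ha 1 (by omega) δ hδ
    have h3 := hg a ha0
    rw [← hc.one _ δ hδ] at h3
    have h4 := Real.exp_le_exp.2 h3
    rw [Real.exp_log (by linarith)] at h4
    linarith

/-- the quotient by the elements of zero entropy -/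
theorem HasEntropyRank.lattice {s : ℕ} (h : HasEntropyRank y n ρ s) {c : Γ → ℝ}
    (hc : Growth y n ρ c) (hn2 : 2 ≤ n) {ε : ℝ} (hε : 0 < ε)
    (hd : ∀ a, (∀ p ≤ n, ∀ δ, DynDegree y n (ρ a) p δ → δ = 1) ∨
      ∃ p ≤ n, ∃ δ, 1 + ε ≤ δ ∧ DynDegree y n (ρ a) p δ) :
    ∃ φ : Γ →+ (Fin s → ℤ), Function.Surjective φ ∧
      ∀ a, φ a = 0 ↔ ∀ p ≤ n, ∀ δ, DynDegree y n (ρ a) p δ → δ = 1 := by
  obtain ⟨g, l, C, hC, hg, hl⟩ := h
  have hn' : (2 : ℝ) ≤ n := by exact_mod_cast hn2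
  have hlog : 0 < Real.log (1 + ε) := Real.log_pos (by linarith)
  obtain ⟨φ, hφ, hker⟩ := ER.lattice hc.semi (C := C * (n + 1)) (by positivity) hg (fun x => by
      obtain ⟨δ, h1, hδ⟩ := hc.exists_deg x 1 (by omega)
      have h2 := (hl x 1 δ hδ).1 (by omega)
      have h3 := (hl x 1 δ hδ).2 one_pos (by omega)
      rw [hc.one x δ hδ] at h2 h3
      have h4 := hc.neg x
      have h5 := hc.nonneg x
      have h6 := hc.nonneg (-x)
      have h7 : 0 ≤ ∑ i, |l x i| := Finset.sum_nonneg fun i _ => abs_nonneg _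
      constructor
      · have h8 : c x + c (-x) ≤ (n + 1) * c x := by linarith
        have h9 := mul_le_mul_of_nonneg_left h2 (show (0 : ℝ) ≤ n + 1 by linarith)
        nlinarith
      · have h8 : C * c x ≤ C * (c x + c (-x)) := mul_le_mul_of_nonneg_left (by linarith) hC.le
        have h9 : 0 ≤ C * (c x + c (-x)) := mul_nonneg hC.le (by linarith)
        nlinarith)
    (ε := Real.log (1 + ε) / n) (by positivity) fun x => by
      rcases hd x with h1 | ⟨p, hp, δ, hδ, hdyn⟩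
      · exact Or.inl ((hc.eq_zero_iff hn2 x).2 h1)
      · right
        have h2 := hc.upper x p hp δ hdyn
        have h3 := Real.log_le_log (by linarith) hδ
        have h4 := hc.nonneg (-x)
        rw [div_le_iff₀ (by linarith)]
        nlinarith
  exact ⟨φ, hφ, fun a => (hker a).trans (hc.eq_zero_iff hn2 a)⟩

end

end Pool.Agent.U492.ER
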