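import Pool.Agent.T2H06.DYN.Defs

/-!
# The entropy rank of a commutative group of birational maps
-/

set_option autoImplicit false

open FF Pool.Agent.W602.GT Pool.Agent.Y172 Pool.Agent.R887 Pool.Agent.T2H06.DYN

namespace Pool.Agent.U492.ER

/-- The commutative group `Γ` acts on the variety `X` of dimension `n` by the birational maps
`ρ x`. Its entropy rank is `s`: there is a homomorphism `l` from `Γ` to `ℝ^s`, whose values at some
`g 1, ..., g s` are the unit vectors, such that the logarithms of the dynamical degrees of the maps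
`ρ x`, of all orders `p` with `0 < p < n`, are bounded from above and from below by constant multiples
of `∑ |l x i|` (the upper bound also holds for `p = 0, n`). -/
def HasEntropyRank {K : Type} [Field K] [Algebra ℂ K] {N : ℕ} (y : Fin (N + 1) → K) (n : ℕ)
    {Γ : Type} [AddCommGroup Γ] (ρ : Γ → (K ≃ₐ[ℂ] K)) (s : ℕ) : Prop :=
  ∃ (g : Fin s → Γ) (l : Γ →+ (Fin s → ℝ)) (C : ℝ), 0 < C ∧ (∀ i, l (g i) = Pi.single i 1) ∧
    ∀ (x : Γ) (p : ℕ) (δ : ℝ), DynDegree y n (ρ x) p δ →
      (p ≤ n → Real.log δ ≤ C * ∑ i, |l x i|) ∧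
      (0 < p → p < n → ∑ i, |l x i| ≤ C * Real.log δ)

end Pool.Agent.U492.ER
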